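import Pool.Agent.Y197.LR.StmB

/-!
Project LR (helper197), job BND: from the logarithmic form to the final form.
-/

set_option autoImplicit false

namespace Pool.Agent.Y143.LR.BND

open Filter Set

theorem abs_exp_sub_one (x : ℝ) : |Real.exp x - 1| ≤ |x| * Real.exp |x| := by
  rcases le_total 0 x with hx | hx
  · rw [abs_of_nonneg hx, abs_of_nonneg (by linarith [Real.add_one_le_exp x])]
    have h1 := Real.add_one_le_exp (-x)
    have h2 : Real.exp (-x) * Real.exp x = 1 := by rw [← Real.exp_add]; simp
    nlinarith [Real.exp_pos x, mul_le_mul_of_nonneg_right h1 (Real.exp_pos x).le]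
  · have h1 := Real.add_one_le_exp x
    have h3 : Real.exp x ≤ 1 := Real.exp_le_one_iff.2 hx
    rw [abs_of_nonpos (by linarith), abs_of_nonpos hx]
    have h4 : 1 ≤ Real.exp (-x) := Real.one_le_exp (by linarith)
    nlinarith

theorem e_tendsto {c D : ℝ} (hc : 0 < c) {n : ℕ} (hn : 1 ≤ n) :
    Tendsto (fun w : ℕ => 4 * (D * Real.exp (-c * w / n))) atTop (nhds 0) := by
  have hn' : (0 : ℝ) < n := by exact_mod_cast hn
  have h1 : Tendsto (fun w : ℕ => -c * (w : ℝ) / n) atTop atBot := by
    have h2 : Tendsto (fun w : ℕ => (w : ℝ)) atTop atTop := tendsto_natCast_atTop_atTop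
    have h3 : Tendsto (fun w : ℕ => (-c / n) * (w : ℝ)) atTop atBot :=
      h2.const_mul_atTop_of_neg (div_neg_of_neg_of_pos (by linarith) hn')
    refine h3.congr fun w => ?_
    ring
  have h4 := ((Real.tendsto_exp_atBot.comp h1).const_mul D).const_mul 4
  simpa using h4

theorem main : Pool.Agent.Y197.LR.S_BND := by
  intro κ c D hκ hc hD
  set Lk : ℝ := |Real.log κ| with hLk
  set M : ℝ := 4 * D + 6 * Lk with hM
  set c' : ℝ := min c (Real.log 2 / 2) with hc'
  have hLk0 : 0 ≤ Lk := abs_nonneg _
  have hM0 : 0 ≤ M := by positivity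
  have hl2 : 0 < Real.log 2 := Real.log_pos (by norm_num)
  have hc'0 : 0 < c' := lt_min hc (by positivity)
  have hc'c : c' ≤ c := min_le_left _ _
  have hc'2 : c' ≤ Real.log 2 / 2 := min_le_right _ _
  set C1 : ℝ := 4 * D * Real.exp (4 * D) with hC1
  set C2 : ℝ := (Real.exp M * Real.exp (5 * Lk) + 1) * Real.exp (5 * c') with hC2
  have hC10 : 0 < C1 := by positivity
  have hC20 : 0 < C2 := by positivity
  refine ⟨c', 1 + Real.exp M + Lk + C1 + C2, hc'0, by positivity, ?_⟩
  set C : ℝ := 1 + Real.exp M + Lk + C1 + C2 with hCdef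
  have hCM : Real.exp M ≤ C := by rw [hCdef]; linarith
  have hCL : Lk ≤ C := by rw [hCdef]; linarith [Real.exp_pos M]
  have hCC1 : C1 ≤ C := by rw [hCdef]; linarith [Real.exp_pos M]
  have hCC2 : C2 ≤ C := by rw [hCdef]; linarith [Real.exp_pos M]
  have hC0 : 0 < C := by rw [hCdef]; positivity
  intro n hn ι o q α β φ hφo hq hq1 hqκ hq2 hqn hlog
  have hn' : (0 : ℝ) < n := by exact_mod_cast hn
  -- `κ ≤ 1`
  have hκ1 : κ ≤ 1 := (hqκ 1 le_rfl (by omega)).trans (hq1 1 le_rfl)
  have hLke : Lk = -Real.log κ := by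
    rw [hLk, abs_of_nonpos (Real.log_nonpos hκ.le hκ1)]
  set e : ℕ → ℝ := fun w => 4 * (D * Real.exp (-c * w / n)) with he
  have het : Tendsto e atTop (nhds 0) := e_tendsto hc hn
  have heD : ∀ w : ℕ, e w ≤ 4 * D := by
    intro w
    have : Real.exp (-c * w / n) ≤ 1 := by
      refine Real.exp_le_one_iff.2 ?_
      refine div_nonpos_of_nonpos_of_nonneg ?_ hn'.le
      have : (0 : ℝ) ≤ w := Nat.cast_nonneg w
      nlinarith
    simp only [he]
    nlinarith
  have he0 : ∀ w : ℕ, 0 ≤ e w := fun w => by simp only [he]; positivity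
  have hshift : ∀ m : ℕ, Tendsto (fun w => e w + e (w + m)) atTop (nhds 0) := by
    intro m
    have := het.add (het.comp (tendsto_add_atTop_nat m))
    simpa using this
  have hoo : ∀ w : ℕ, 3 * n + 2 ≤ w → |Real.log (q w o o) - (α - β * w)| ≤ e w := by
    intro w hw
    have := hlog w hw o o
    rw [hφo, add_zero, add_zero] at this
    exact this
  -- lower bound for `β`
  have hβ1 : Real.log 2 ≤ 2 * (β * n) := by
    have hle : ∀ᶠ w : ℕ in atTop, Real.log 2 - 2 * (β * n) ≤ e w + e (w + 2 * n) := by
      filter_upwards [eventually_ge_atTop (3 * n + 2)] with w hw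
      have a1 := abs_le.1 (hoo w hw)
      have a2 := abs_le.1 (hoo (w + 2 * n) (by omega))
      have a3 := hq2 w (by omega)
      have p1 := (hq w (by omega) o o).1
      have p2 := (hq (w + 2 * n) (by omega) o o).1
      have a4 : Real.log (q (w + 2 * n) o o) ≤ Real.log (q w o o) - Real.log 2 := by
        have := Real.log_le_log p2 a3
        rw [show (1 / 2 * q w o o : ℝ) = q w o o / 2 by ring, Real.log_div p1.ne' (by norm_num)]
          at this
        exact this
      push_cast at a2
      linarith [a1.1, a1.2, a2.1, a2.2]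
    have := ge_of_tendsto (hshift (2 * n)) hle
    linarith
  -- upper bound for `β`
  have hβ2 : β * n ≤ Lk := by
    have hle : ∀ᶠ w : ℕ in atTop, β * n - Lk ≤ e w + e (w + n) := by
      filter_upwards [eventually_ge_atTop (3 * n + 2)] with w hw
      have a1 := abs_le.1 (hoo w hw)
      have a2 := abs_le.1 (hoo (w + n) (by omega))
      have a3 := hqn w (by omega)
      have p1 := (hq w (by omega) o o).1
      have a4 : Real.log κ + Real.log (q w o o) ≤ Real.log (q (w + n) o o) := by
        rw [← Real.log_mul hκ.ne' p1.ne']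
        exact Real.log_le_log (mul_pos hκ p1) a3
      push_cast at a2
      rw [hLke]
      linarith [a1.1, a1.2, a2.1, a2.2]
    have := ge_of_tendsto (hshift n) hle
    linarith
  have hβ0 : 0 ≤ β := by
    by_contra hcon
    push Not at hcon
    nlinarith
  have hβw : ∀ w : ℕ, w ≤ 3 * n + 2 → β * w ≤ 5 * Lk := by
    intro w hw
    have h1 : (w : ℝ) ≤ 5 * n := by
      have : w ≤ 5 * n := by omega
      exact_mod_cast this
    calc β * w ≤ β * (5 * n) := mul_le_mul_of_nonneg_left h1 hβ0
      _ = 5 * (β * n) := by ring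
      _ ≤ 5 * Lk := by linarith
  -- bound for `α`
  have hα : |α| ≤ M := by
    have a1 := abs_le.1 (hoo (3 * n + 2) le_rfl)
    have p1 := (hq (3 * n + 2) (by omega) o o).1
    have a2 := hq1 (3 * n + 2) (by omega)
    have a3 := hqκ (3 * n + 2) (by omega) (by omega)
    have a4 : Real.log (q (3 * n + 2) o o) ≤ 0 := Real.log_nonpos p1.le a2
    have a5 : Real.log κ ≤ Real.log (q (3 * n + 2) o o) := Real.log_le_log hκ a3
    have a6 := heD (3 * n + 2)
    have a7 := hβw (3 * n + 2) le_rfl
    have a8 : 0 ≤ β * ((3 * n + 2 : ℕ) : ℝ) := by positivity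
    rw [abs_le, hM]
    constructor
    · linarith [a1.1, a1.2]
    · linarith [a1.1, a1.2]
  have hα' := abs_le.1 hα
  have hφ : ∀ T, φ T ≤ 0 := by
    intro T
    have hle : ∀ᶠ w : ℕ in atTop, φ T ≤ e w + e (w + 0) := by
      filter_upwards [eventually_ge_atTop (3 * n + 2)] with w hw
      have a1 := abs_le.1 (hoo w hw)
      have a2 := abs_le.1 (hlog w hw T o)
      rw [hφo] at a2
      obtain ⟨p1, p2, -⟩ := hq w (by omega) T o
      have a3 := Real.log_le_log p1 p2
      have a4 : e w = 4 * (D * Real.exp (-c * w / n)) := rfl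
      rw [add_zero]
      rw [← a4] at a2
      linarith [a1.1, a1.2, a2.1, a2.2]
    exact ge_of_tendsto (hshift 0) hle
  -- the ratio for large widths
  have hlarge : ∀ w : ℕ, 3 * n + 2 ≤ w → ∀ T S : ι,
      |q w T S / (Real.exp α * Real.exp (φ T) * Real.exp (φ S) * Real.exp (-β * w)) - 1| ≤
        C * Real.exp (-c' * w / n) := by
    intro w hw T S
    have p1 := (hq w (by omega) T S).1
    have h1 : q w T S / (Real.exp α * Real.exp (φ T) * Real.exp (φ S) * Real.exp (-β * w)) =
        Real.exp (Real.log (q w T S) - (α + φ T + φ S - β * w)) := by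
      rw [Real.exp_sub, Real.exp_log p1, ← Real.exp_add, ← Real.exp_add, ← Real.exp_add]
      congr 2
      ring
    rw [h1]
    have h2 := hlog w hw T S
    set x := Real.log (q w T S) - (α + φ T + φ S - β * w) with hx
    have h3 : |x| ≤ 4 * D := h2.trans (heD w)
    have hw0 : (0 : ℝ) ≤ w := Nat.cast_nonneg w
    have h4 : Real.exp (-c * w / n) ≤ Real.exp (-c' * w / n) := by
      refine Real.exp_le_exp.2 ?_
      rw [div_le_div_iff_of_pos_right hn']
      nlinarith
    calc |Real.exp x - 1| ≤ |x| * Real.exp |x| := abs_exp_sub_one x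
      _ ≤ (4 * (D * Real.exp (-c * w / n))) * Real.exp (4 * D) := by
          refine mul_le_mul h2 (Real.exp_le_exp.2 h3) (Real.exp_pos _).le (by positivity)
      _ = C1 * Real.exp (-c * w / n) := by rw [hC1]; ring
      _ ≤ C1 * Real.exp (-c' * w / n) := mul_le_mul_of_nonneg_left h4 hC10.le
      _ ≤ C * Real.exp (-c' * w / n) := mul_le_mul_of_nonneg_right hCC1 (Real.exp_pos _).le
  refine ⟨Real.exp α, fun T => Real.exp (φ T), ?_, ?_, ?_, ?_, ?_, ?_, ?_, ?_⟩
  · rw [div_le_iff₀ hC0]
    have h1 : Real.exp (-M) ≤ Real.exp α := Real.exp_le_exp.2 hα'.1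
    calc (1 : ℝ) = Real.exp (-M) * Real.exp M := by rw [← Real.exp_add]; simp
      _ ≤ Real.exp α * C := mul_le_mul h1 hCM (Real.exp_pos _).le (Real.exp_pos _).le
  · exact (Real.exp_le_exp.2 hα'.2).trans hCM
  · rw [div_le_iff₀ hn']
    linarith
  · rw [le_div_iff₀ hn']
    linarith
  · show Real.exp (φ o) = 1
    rw [hφo, Real.exp_zero]
  · intro T
    exact ⟨Real.exp_pos _, Real.exp_le_one_iff.2 (hφ T)⟩
  · intro w hw
    rcases le_or_gt (3 * n + 2) w with hw2 | hw2
    · have := hlarge w hw2 o o
      rw [hφo, Real.exp_zero, mul_one, mul_one] at this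
      exact this
    · have p1 := (hq w hw o o).1
      have p2 := hq1 w hw
      have h1 := hβw w (by omega)
      have hden : Real.exp (-M) * Real.exp (-(5 * Lk)) ≤ Real.exp α * Real.exp (-β * w) := by
        refine mul_le_mul (Real.exp_le_exp.2 hα'.1) (Real.exp_le_exp.2 (by linarith))
          (Real.exp_pos _).le (Real.exp_pos _).le
      have hden0 : 0 < Real.exp α * Real.exp (-β * w) := by positivity
      have hr : q w o o / (Real.exp α * Real.exp (-β * w)) ≤ Real.exp M * Real.exp (5 * Lk) := by
        rw [div_le_iff₀ hden0]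
        have h2 : (1 : ℝ) = (Real.exp M * Real.exp (5 * Lk)) *
            (Real.exp (-M) * Real.exp (-(5 * Lk))) := by
          have g1 : Real.exp M * Real.exp (-M) = 1 := by rw [← Real.exp_add]; simp
          have g2 : Real.exp (5 * Lk) * Real.exp (-(5 * Lk)) = 1 := by rw [← Real.exp_add]; simp
          calc (1 : ℝ) = (Real.exp M * Real.exp (-M)) *
              (Real.exp (5 * Lk) * Real.exp (-(5 * Lk))) := by rw [g1, g2, one_mul]
            _ = _ := by ring
        calc q w o o ≤ 1 := p2
          _ = (Real.exp M * Real.exp (5 * Lk)) * (Real.exp (-M) * Real.exp (-(5 * Lk))) := h2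
          _ ≤ _ := mul_le_mul_of_nonneg_left hden (by positivity)
      have hr0 : 0 ≤ q w o o / (Real.exp α * Real.exp (-β * w)) := by positivity
      have h3 : |q w o o / (Real.exp α * Real.exp (-β * w)) - 1| ≤
          Real.exp M * Real.exp (5 * Lk) + 1 := by
        rw [abs_le]
        constructor
        · have : 0 < Real.exp M * Real.exp (5 * Lk) := by positivity
          linarith
        · linarith
      have h4 : 1 ≤ Real.exp (5 * c') * Real.exp (-c' * w / n) := by
        rw [← Real.exp_add]
        refine Real.one_le_exp ?_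
        have h5 : (w : ℝ) ≤ 5 * n := by
          have : w ≤ 5 * n := by omega
          exact_mod_cast this
        have h6 : c' * w / n ≤ 5 * c' := by
          rw [div_le_iff₀ hn']
          nlinarith
        have h7 : -c' * w / n = -(c' * w / n) := by ring
        rw [h7]
        linarith
      calc |q w o o / (Real.exp α * Real.exp (-β * w)) - 1| ≤
          (Real.exp M * Real.exp (5 * Lk) + 1) * 1 := by rw [mul_one]; exact h3
        _ ≤ (Real.exp M * Real.exp (5 * Lk) + 1) * (Real.exp (5 * c') * Real.exp (-c' * w / n)) :=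
            mul_le_mul_of_nonneg_left h4 (by positivity)
        _ = C2 * Real.exp (-c' * w / n) := by rw [hC2]; ring
        _ ≤ C * Real.exp (-c' * w / n) := mul_le_mul_of_nonneg_right hCC2 (Real.exp_pos _).le
  · exact hlarge

end Pool.Agent.Y143.LR.BND
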