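import Pool.Agent.Y197.LR.StmB

/-!
Project LR (helper197), job SUB: limits along subsequences.
-/

set_option autoImplicit false

namespace Pool.Agent.Y143.LR.SUB

open Filter Set

theorem main : Pool.Agent.Y197.LR.S_SUB := by
  intro c C q hc hC h u hu
  choose! A β h1 h2 h3 h4 h5 using h
  let N : ℕ → ℕ := fun k => max (u k) 1
  have hN : ∀ k, 1 ≤ N k := fun k => le_max_right _ _
  have hNr : ∀ k, (0 : ℝ) < N k := fun k => by exact_mod_cast hN k
  let x : ℕ → ℝ × ℝ := fun k => (A (N k), β (N k) * N k)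
  have hx : ∀ k, x k ∈ Icc (1 / C) C ×ˢ Icc c C := by
    intro k
    refine ⟨⟨h1 _ (hN k), h2 _ (hN k)⟩, ?_, ?_⟩
    · exact (div_le_iff₀ (hNr k)).1 (h3 _ (hN k))
    · exact (le_div_iff₀ (hNr k)).1 (h4 _ (hN k))
  obtain ⟨⟨a, b⟩, ⟨⟨ha1, ha2⟩, hb1, hb2⟩, φ, hφ, hlim⟩ :=
    (isCompact_Icc.prod isCompact_Icc).tendsto_subseq hx
  have ha0 : 0 < a := lt_of_lt_of_le (by positivity) ha1
  refine ⟨a, b, ha1, ha2, hb1, hb2, ?_⟩
  intro v l γ hl hv hq
  have hφt : Tendsto φ atTop atTop := hφ.tendsto_atTop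
  have hv' := hv.comp hφt
  have hq' := hq.comp hφt
  have l1 : Tendsto (fun k => (x (φ k)).1) atTop (nhds a) :=
    (continuous_fst.tendsto (a, b)).comp hlim
  have l2 : Tendsto (fun k => (x (φ k)).2) atTop (nhds b) :=
    (continuous_snd.tendsto (a, b)).comp hlim
  have l3 : Tendsto (fun k => (x (φ k)).1 * Real.exp (-(x (φ k)).2 * ((v (φ k) : ℝ) / u (φ k))))
      atTop (nhds (a * Real.exp (-b * l))) := by
    refine l1.mul ((Real.continuous_exp.tendsto _).comp (l2.neg.mul ?_))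
    exact hv'
  have hne : a * Real.exp (-b * l) ≠ 0 := by positivity
  have l4 : Tendsto (fun k => |q (v (φ k)) (u (φ k)) /
      ((x (φ k)).1 * Real.exp (-(x (φ k)).2 * ((v (φ k) : ℝ) / u (φ k)))) - 1|) atTop
      (nhds |γ / (a * Real.exp (-b * l)) - 1|) :=
    ((hq'.div l3 hne).sub_const 1).abs
  have l5 : Tendsto (fun k => C * Real.exp (-c * ((v (φ k) : ℝ) / u (φ k)))) atTop
      (nhds (C * Real.exp (-c * l))) := by
    refine tendsto_const_nhds.mul ((Real.continuous_exp.tendsto _).comp ?_)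
    exact tendsto_const_nhds.mul hv'
  refine le_of_tendsto_of_tendsto l4 l5 ?_
  have e1 : ∀ᶠ k in atTop, 1 ≤ u (φ k) := (hu.comp hφt).eventually_ge_atTop 1
  have e2 : ∀ᶠ k in atTop, 0 < (v (φ k) : ℝ) / u (φ k) := hv'.eventually_const_lt hl
  filter_upwards [e1, e2] with k hk1 hk2
  have hNk : N (φ k) = u (φ k) := max_eq_left hk1
  have hvk : 1 ≤ v (φ k) := by
    by_contra hcon
    have h0 : v (φ k) = 0 := by omega
    rw [h0] at hk2
    simp at hk2
  have hur : (0 : ℝ) < u (φ k) := by exact_mod_cast hk1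
  have h6 := h5 (u (φ k)) hk1 (v (φ k)) hvk
  have e3 : (x (φ k)).1 = A (u (φ k)) := by simp only [x, hNk]
  have e4 : -(x (φ k)).2 * ((v (φ k) : ℝ) / u (φ k)) = -β (u (φ k)) * v (φ k) := by
    simp only [x, hNk]
    field_simp
  have e5 : -c * ((v (φ k) : ℝ) / u (φ k)) = -c * v (φ k) / u (φ k) := by ring
  rw [e3, e4, e5]
  exact h6

end Pool.Agent.Y143.LR.SUB
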